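import Pool.Agent.Helper17.Uct.Sel

/-! Generic points (packet GEN of MP_d97caa_an). -/

set_option autoImplicit false

open scoped ComplexOrder

namespace Pool.Agent.Helper17.Uct

open Pool.Agent.Helper39.Uct Fib

section

variable {Q : Type} [Group Q] {B : Type} [NonUnitalCStarAlgebra B] {G : Fib Q B}

/-- the unit fibre as a subalgebra -/
def CC (G : Fib Q B) : NonUnitalStarSubalgebra ℂ B where
  carrier := G.fib 1
  add_mem' := fun ha hb => (G.fib 1).add_mem ha hb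
  zero_mem' := (G.fib 1).zero_mem
  mul_mem' := fun ha hb => one_mul_mem ha hb
  smul_mem' := fun c _ hx => (G.fib 1).smul_mem c hx
  star_mem' := fun hx => one_star_mem hx

/-- splitting a self-adjoint element of the unit fibre -/
theorem exists_split (G : Fib Q B) {h : B} (hh : h ∈ G.fib 1) (hsa : IsSelfAdjoint h) :
    ∃ k ∈ G.fib 1, ∃ m ∈ G.fib 1, IsSelfAdjoint k ∧ IsSelfAdjoint m ∧ k * m = 0 ∧
      h = k * k - m * m := by
  have hcl : IsClosed ((CC G : NonUnitalStarSubalgebra ℂ B) : Set B) := G.closed 1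
  have hmem : ∀ f : ℝ → ℝ, cfcₙ f h ∈ G.fib 1 := by
    intro f
    have : cfcₙ f h ∈ CC G := cfcₙ_mem f (show h ∈ CC G from hh)
    exact this
  have c1 : Continuous fun x : ℝ => √(max x 0) := by fun_prop
  have c2 : Continuous fun x : ℝ => √(max (-x) 0) := by fun_prop
  refine ⟨cfcₙ (fun x : ℝ => √(max x 0)) h, hmem _, cfcₙ (fun x : ℝ => √(max (-x) 0)) h, hmem _,
    IsSelfAdjoint.cfcₙ, IsSelfAdjoint.cfcₙ, ?_, ?_⟩
  · rw [← cfcₙ_mul (fun x : ℝ => √(max x 0)) (fun x : ℝ => √(max (-x) 0)) h c1.continuousOn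
      (by simp) c2.continuousOn (by simp)]
    have e : (fun x : ℝ => √(max x 0) * √(max (-x) 0)) = fun _ => 0 := by
      funext x
      rcases le_total x 0 with h | h
      · rw [max_eq_right h]; simp
      · rw [max_eq_right (a := -x) (by linarith)]; simp
    rw [e, cfcₙ_const_zero]
  · rw [← cfcₙ_mul (fun x : ℝ => √(max x 0)) (fun x : ℝ => √(max x 0)) h c1.continuousOn
      (by simp) c1.continuousOn (by simp),
      ← cfcₙ_mul (fun x : ℝ => √(max (-x) 0)) (fun x : ℝ => √(max (-x) 0)) h c2.continuousOn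
      (by simp) c2.continuousOn (by simp)]
    rw [← cfcₙ_sub (fun x : ℝ => √(max x 0) * √(max x 0))
      (fun x : ℝ => √(max (-x) 0) * √(max (-x) 0)) h (c1.mul c1).continuousOn (by simp)
      (c2.mul c2).continuousOn (by simp)]
    conv_lhs => rw [← cfcₙ_id' ℝ h]
    congr 1
    funext x
    rw [Real.mul_self_sqrt (le_max_right _ _), Real.mul_self_sqrt (le_max_right _ _)]
    rcases le_total x 0 with h | h
    · rw [max_eq_right h, max_eq_left (a := -x) (by linarith)]; ring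
    · rw [max_eq_left h, max_eq_right (a := -x) (by linarith)]; ring

/-- (a) generic shrinking -/
theorem shrink (hPF : PF G) (hPE : S_PE) (hC : G.Comm) {d : B} (hd : d ∈ G.fib 1)
    {L : Subgroup Q} {q : Q}
    (hq : ∀ d' ∈ G.fib 1, d * d' ≠ 0 → ∃ φ : G.Pt, φ (d * d') ≠ 0 ∧ q ∉ G.DD φ L)
    {g : B} (hg : g ∈ G.fib 1) (hne : d * g ≠ 0) :
    ∃ g' ∈ G.fib 1, d * (g * g') ≠ 0 ∧ ∀ φ : G.Pt, φ (d * (g * g')) ≠ 0 → q ∉ G.DD φ L := by
  by_cases hA : ∃ b ∈ G.fib q, d * (g * (star b * b)) ≠ 0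
  · obtain ⟨b₀, hb₀, hb₀ne⟩ := hA
    have he : star b₀ * b₀ ∈ G.fib 1 := by
      have := G.mul_mem q⁻¹ q _ _ (G.star_mem q b₀ hb₀) hb₀
      rwa [inv_mul_cancel] at this
    obtain ⟨φ, hφ, hφq⟩ := hq _ (one_mul_mem hg he) hb₀ne
    obtain ⟨p1, p2⟩ := phi_left hd (one_mul_mem hg he) hφ
    obtain ⟨p3, p4⟩ := phi_left hg he p2
    -- it is enough to find `z` in the unit fibre
    have key : ∀ z ∈ G.fib 1, φ z ≠ 0 → (∀ ψ : G.Pt, ψ z ≠ 0 → q ∉ G.DD ψ L) →
        ∃ g' ∈ G.fib 1, d * (g * g') ≠ 0 ∧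
          ∀ φ : G.Pt, φ (d * (g * g')) ≠ 0 → q ∉ G.DD φ L := by
      intro z hz hφz hψ
      refine ⟨z, hz, ne_of_phi (phi_mul hd (one_mul_mem hg hz) p1 (phi_mul hg hz p3 hφz)), ?_⟩
      intro ψ h
      exact hψ ψ (phi_left hg hz (phi_left hd (one_mul_mem hg hz) h).2).2
    by_cases hSt : q ∈ G.St φ
    · have h1 : ∃ l ∈ L, ¬ G.Cm φ q l := by
        by_contra hcon
        push Not at hcon
        exact hφq ⟨hSt, hcon⟩
      obtain ⟨l, hl, hcm⟩ := h1
      by_cases hcomm : q * l = l * q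
      · have h2 : ∃ b ∈ G.fib q, ∃ b' ∈ G.fib l,
            φ (star (b * b' - b' * b) * (b * b' - b' * b)) ≠ 0 := by
          by_contra hcon
          push Not at hcon
          exact hcm ⟨hcomm, hcon⟩
        obtain ⟨b, hb, b', hb', hne2⟩ := h2
        have hx : b * b' - b' * b ∈ G.fib (q * l) := by
          refine (G.fib (q * l)).sub_mem (G.mul_mem _ _ _ _ hb hb') ?_
          rw [hcomm]
          exact G.mul_mem _ _ _ _ hb' hb
        have hz : star (b * b' - b' * b) * (b * b' - b' * b) ∈ G.fib 1 := by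
          have := G.mul_mem _ _ _ _ (G.star_mem _ _ hx) hx
          rwa [inv_mul_cancel] at this
        refine key _ hz hne2 ?_
        intro ψ hψ hD
        exact hψ ((hD.2 l hl).2 b hb b' hb')
      · refine key _ he p4 ?_
        intro ψ _ hD
        exact hcomm (hD.2 l hl).1
    · have h1 : ∃ b ∈ G.fib q, ∃ c ∈ G.fib 1, φ (star b * c * b) ≠ φ c * φ (star b * b) := by
        by_contra hcon
        push Not at hcon
        exact hSt ⟨⟨b₀, hb₀, p4⟩, hcon⟩
      obtain ⟨b, hb, c, hc, hne2⟩ := h1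
      have hbb : star b * b ∈ G.fib 1 := by
        have := G.mul_mem q⁻¹ q _ _ (G.star_mem q b hb) hb
        rwa [inv_mul_cancel] at this
      have hbcb : star b * c * b ∈ G.fib 1 := by
        have := G.mul_mem _ _ _ _ (G.mul_mem q⁻¹ 1 _ _ (G.star_mem q b hb) hc) hb
        rwa [mul_one, inv_mul_cancel] at this
      have hval : ∀ ψ : G.Pt, ψ (star b * c * b - c * (star b * b)) =
          ψ (star b * c * b) - ψ c * ψ (star b * b) := by
        intro ψ
        have e1 : ψ (star b * c * b - c * (star b * b)) =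
          ψ (star b * c * b) - ψ (c * (star b * b)) := map_sub ψ.toFun _ _
        rw [e1, ψ.mult c hc _ hbb]
      refine key (star b * c * b - c * (star b * b))
        ((G.fib 1).sub_mem hbcb (one_mul_mem hc hbb)) ?_ ?_
      · rw [hval]
        exact sub_ne_zero.2 hne2
      · intro ψ hψ hD
        rw [hval, hD.1.2 b hb c hc, sub_self] at hψ
        exact hψ rfl
  · push Not at hA
    obtain ⟨φ, hφ⟩ := exists_phi hPE hC (one_mul_mem hd hg) hne
    obtain ⟨p1, p2⟩ := phi_left hd hg hφ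
    refine ⟨star g, one_star_mem hg, ?_, ?_⟩
    · apply ne_of_phi (φ := φ)
      refine phi_mul hd (one_mul_mem hg (one_star_mem hg)) p1
        (phi_mul hg (one_star_mem hg) p2 ?_)
      rw [hPF.herm]
      exact star_ne_zero.2 p2
    · intro ψ hψ hD
      obtain ⟨r1, r2⟩ := phi_left hd (one_mul_mem hg (one_star_mem hg)) hψ
      obtain ⟨r3, -⟩ := phi_left hg (one_star_mem hg) r2
      obtain ⟨b, hb, hb2⟩ := hD.1.1
      have hbb : star b * b ∈ G.fib 1 := by
        have := G.mul_mem q⁻¹ q _ _ (G.star_mem q b hb) hb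
        rwa [inv_mul_cancel] at this
      have h1 := phi_mul hd (one_mul_mem hg hbb) r1 (phi_mul hg hbb r3 hb2)
      exact ne_of_phi h1 (hA b hb)

theorem shrinks (hPF : PF G) (hPE : S_PE) (hC : G.Comm) {d : B} (hd : d ∈ G.fib 1)
    {L : Subgroup Q}
    (hq : ∀ q : Q, q ≠ 1 → ∀ d' ∈ G.fib 1, d * d' ≠ 0 →
      ∃ φ : G.Pt, φ (d * d') ≠ 0 ∧ q ∉ G.DD φ L)
    (F : Finset Q) (hF : 1 ∉ F) {g : B} (hg : g ∈ G.fib 1) (hne : d * g ≠ 0) :
    ∃ g' ∈ G.fib 1, d * g' ≠ 0 ∧ ∀ φ : G.Pt, φ (d * g') ≠ 0 → φ (d * g) ≠ 0 ∧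
      ∀ q ∈ F, q ∉ G.DD φ L := by
  classical
  induction F using Finset.induction_on with
  | empty => exact ⟨g, hg, hne, fun φ h => ⟨h, by simp⟩⟩
  | insert a F _ ih =>
    obtain ⟨g₁, h1, h2, h3⟩ := ih fun h => hF (Finset.mem_insert_of_mem h)
    have ha1 : a ≠ 1 := by
      rintro rfl
      exact hF (Finset.mem_insert_self _ _)
    obtain ⟨g₂, k1, k2, k3⟩ := shrink hPF hPE hC hd (hq a ha1) h1 h2
    refine ⟨g₁ * g₂, one_mul_mem h1 k1, k2, ?_⟩
    intro φ hφ
    obtain ⟨r1, r2⟩ := phi_left hd (one_mul_mem h1 k1) hφ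
    obtain ⟨r3, -⟩ := phi_left h1 k1 r2
    obtain ⟨r4, r5⟩ := h3 φ (phi_mul hd h1 r1 r3)
    refine ⟨r4, ?_⟩
    intro q hq
    rcases Finset.mem_insert.1 hq with rfl | hq
    · exact k3 φ hφ
    · exact r5 q hq

end

theorem gen (hPF : S_PF) (hPE : S_PE) : S_GEN := by
  intro Q _ B _ G hC d L hd hsa hsep c hc hc0 ε hε F hF
  have pf := hPF Q B G hC
  -- `c` is in the unit fibre
  have hcC : c ∈ G.fib 1 := by
    have h1 : {x | ∃ y ∈ G.fib 1, x = d * y * d} ⊆ (G.fib 1 : Set B) := by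
      rintro _ ⟨y, hy, rfl⟩
      exact one_mul_mem (one_mul_mem hd hy) hd
    exact closure_minimal h1 (G.closed 1) hc
  -- `φ c ≠ 0` implies `φ d ≠ 0`
  have hcd : ∀ φ : G.Pt, φ c ≠ 0 → φ d ≠ 0 := by
    intro φ hφ hd0
    apply hφ
    have hcont : Continuous φ.toFun :=
      (φ.toFun.mkContinuous 1 (fun b => by rw [one_mul]; exact φ.bound b)).continuous
    have h1 : {x | ∃ y ∈ G.fib 1, x = d * y * d} ⊆ {x | φ.toFun x = 0} := by
      rintro _ ⟨y, hy, rfl⟩
      show φ (d * y * d) = 0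
      rw [φ.mult _ (one_mul_mem hd hy) _ hd, hd0, mul_zero]
    exact closure_minimal h1 (isClosed_eq hcont continuous_const) hc
  set r : ℝ := max (‖c‖ - ε) 0 with hr
  have hcn : 0 < ‖c‖ := norm_pos_iff.2 hc0
  have hr0 : 0 ≤ r := le_max_right _ _
  have hrc : r < ‖c‖ := by
    rw [hr]
    exact max_lt (by linarith) hcn
  have haC : star c * c ∈ G.fib 1 := one_mul_mem (one_star_mem hcC) hcC
  set a := star c * c with ha
  have hasa : IsSelfAdjoint a := IsSelfAdjoint.star_mul_self c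
  set h := a * a - ((r ^ 2 : ℝ) : ℂ) • a with hh
  have hhC : h ∈ G.fib 1 := (G.fib 1).sub_mem (one_mul_mem haC haC) ((G.fib 1).smul_mem _ haC)
  have hhsa : IsSelfAdjoint h := by
    rw [IsSelfAdjoint, hh, star_sub, star_mul, star_smul, hasa.star_eq]
    congr 2
    exact Complex.conj_ofReal _
  have hφa : ∀ φ : G.Pt, φ a = ((‖φ c‖ ^ 2 : ℝ) : ℂ) := by
    intro φ
    rw [ha, φ.mult _ (one_star_mem hcC) _ hcC, pf.herm]
    have := Complex.normSq_eq_conj_mul_self (z := φ c)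
    rw [Complex.normSq_eq_norm_sq] at this
    exact this.symm
  have hφh : ∀ φ : G.Pt, φ h = ((‖φ c‖ ^ 2 * (‖φ c‖ ^ 2 - r ^ 2) : ℝ) : ℂ) := by
    intro φ
    have e1 : φ h = φ (a * a) - ((r ^ 2 : ℝ) : ℂ) * φ a := by
      rw [hh]
      show φ.toFun _ = _
      rw [map_sub, map_smul]
      rfl
    rw [e1, φ.mult _ haC _ haC, hφa]
    push_cast
    ring
  obtain ⟨k, hk, m, hm, hksa, hmsa, hkm, hsplit⟩ := exists_split G hhC hhsa
  have hreal : ∀ (φ : G.Pt) (x : B), IsSelfAdjoint x → ∃ t : ℝ, φ x = (t : ℂ) := by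
    intro φ x hx
    have h1 := pf.herm φ x
    rw [hx.star_eq] at h1
    exact ⟨(φ x).re, (Complex.conj_eq_iff_real.1 h1.symm).elim fun t ht => by rw [ht]; simp⟩
  have hφkm : ∀ φ : G.Pt, φ k = 0 ∨ φ m = 0 := by
    intro φ
    have h1 : φ (k * m) = 0 := by rw [hkm]; exact map_zero φ.toFun
    rw [φ.mult _ hk _ hm] at h1
    exact mul_eq_zero.1 h1
  have hφs : ∀ φ : G.Pt, φ h = φ k * φ k - φ m * φ m := by
    intro φ
    have e1 : φ h = φ (k * k) - φ (m * m) := by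
      rw [hsplit]
      exact map_sub φ.toFun _ _
    rw [e1, φ.mult _ hk _ hk, φ.mult _ hm _ hm]
  have hiff : ∀ φ : G.Pt, φ k ≠ 0 ↔ 0 < ‖φ c‖ ^ 2 * (‖φ c‖ ^ 2 - r ^ 2) := by
    intro φ
    obtain ⟨s, hs⟩ := hreal φ k hksa
    obtain ⟨t, ht⟩ := hreal φ m hmsa
    have h1 := hφs φ
    rw [hφh, hs, ht] at h1
    have h2 : ‖φ c‖ ^ 2 * (‖φ c‖ ^ 2 - r ^ 2) = s * s - t * t := by exact_mod_cast h1
    constructor
    · intro hne
      have h3 : φ m = 0 := (hφkm φ).resolve_left hne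
      rw [ht] at h3
      have h4 : t = 0 := by exact_mod_cast h3
      have h5 : s ≠ 0 := by
        rintro rfl
        rw [hs] at hne
        exact hne (by simp)
      rw [h2, h4]
      have := mul_self_pos.2 h5
      linarith
    · intro hpos h0
      rw [hs] at h0
      have h4 : s = 0 := by exact_mod_cast h0
      rw [h2, h4] at hpos
      nlinarith [mul_self_nonneg t]
  obtain ⟨φ₀, hφ₀⟩ := hPE Q B G hC c hcC hc0
  have hk0 : φ₀ k ≠ 0 := by
    rw [hiff, hφ₀]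
    have : r ^ 2 < ‖c‖ ^ 2 := by nlinarith
    have h2 : 0 < ‖c‖ ^ 2 := by positivity
    exact mul_pos h2 (by linarith)
  have hd0 : φ₀ d ≠ 0 := by
    apply hcd
    intro h0
    rw [h0, norm_zero] at hφ₀
    linarith
  have hdk : d * k ≠ 0 := ne_of_phi (phi_mul hd hk hd0 hk0)
  obtain ⟨g', hg', hg'ne, hall⟩ := shrinks pf hPE hC hd hsep F hF hk hdk
  obtain ⟨φ, hφ⟩ := exists_phi hPE hC (one_mul_mem hd hg') hg'ne
  obtain ⟨h1, h2⟩ := hall φ hφ
  obtain ⟨h3, h4⟩ := phi_left hd hk h1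
  refine ⟨φ, ?_, h3, h2⟩
  have h5 := (hiff φ).1 h4
  have h6 : r ≤ ‖φ c‖ := by
    by_contra hlt
    push Not at hlt
    have h7 : ‖φ c‖ ^ 2 ≤ r ^ 2 := by
      have := norm_nonneg (φ c)
      nlinarith
    have h8 : ‖φ c‖ ^ 2 * (‖φ c‖ ^ 2 - r ^ 2) ≤ 0 :=
      mul_nonpos_of_nonneg_of_nonpos (by positivity) (by linarith)
    linarith
  exact (le_max_left _ _).trans h6

end Pool.Agent.Helper17.Uct
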