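import Pool.Agent.Helper39.Uct.Goals2

/-! The selection argument (packet SEL of MP_d97caa_an). -/

set_option autoImplicit false

open scoped ComplexOrder

namespace Pool.Agent.Helper17.Uct

open Pool.Agent.Helper39.Uct Fib

section

variable {Q : Type} [Group Q] {B : Type} [NonUnitalCStarAlgebra B] {G : Fib Q B}

theorem one_mul_mem {x y : B} (hx : x ∈ G.fib 1) (hy : y ∈ G.fib 1) : x * y ∈ G.fib 1 := by
  have := G.mul_mem 1 1 x y hx hy
  rwa [mul_one] at this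

theorem one_star_mem {x : B} (hx : x ∈ G.fib 1) : star x ∈ G.fib 1 := by
  have := G.star_mem 1 x hx
  rwa [inv_one] at this

theorem sa_mul (hC : G.Comm) {x y : B} (hx : x ∈ G.fib 1) (hy : y ∈ G.fib 1)
    (hx' : IsSelfAdjoint x) (hy' : IsSelfAdjoint y) : IsSelfAdjoint (x * y) := by
  rw [IsSelfAdjoint, star_mul, hx'.star_eq, hy'.star_eq]
  exact hC y hy x hx

theorem phi_left {φ : G.Pt} {x y : B} (hx : x ∈ G.fib 1) (hy : y ∈ G.fib 1)
    (h : φ (x * y) ≠ 0) : φ x ≠ 0 ∧ φ y ≠ 0 := by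
  rw [φ.mult x hx y hy] at h
  exact ⟨left_ne_zero_of_mul h, right_ne_zero_of_mul h⟩

theorem phi_mul {φ : G.Pt} {x y : B} (hx : x ∈ G.fib 1) (hy : y ∈ G.fib 1)
    (h1 : φ x ≠ 0) (h2 : φ y ≠ 0) : φ (x * y) ≠ 0 := by
  rw [φ.mult x hx y hy]
  exact mul_ne_zero h1 h2

theorem ne_of_phi {φ : G.Pt} {x : B} (h : φ x ≠ 0) : x ≠ 0 := by
  rintro rfl
  exact h (map_zero φ.toFun)

theorem exists_phi (hPE : S_PE) (hC : G.Comm) {c : B} (hc : c ∈ G.fib 1) (h : c ≠ 0) :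
    ∃ φ : G.Pt, φ c ≠ 0 := by
  obtain ⟨φ, hφ⟩ := hPE Q B G hC c hc h
  refine ⟨φ, fun h0 => ?_⟩
  rw [h0, norm_zero] at hφ
  exact h (norm_eq_zero.1 hφ.symm)

theorem exists_sa [Nontrivial B] (G : Fib Q B) :
    ∃ d ∈ G.fib 1, IsSelfAdjoint d ∧ d ≠ 0 := by
  by_contra hcon
  push Not at hcon
  have h1 : ∀ q, G.fib q = ⊥ := by
    intro q
    rw [eq_bot_iff]
    intro b hb
    have h2 : star b * b ∈ G.fib 1 := by
      have := G.mul_mem q⁻¹ q _ _ (G.star_mem q b hb) hb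
      rwa [inv_mul_cancel] at this
    have h3 := hcon _ h2 (IsSelfAdjoint.star_mul_self b)
    rw [Submodule.mem_bot]
    exact CStarRing.star_mul_self_eq_zero_iff b |>.1 h3
  have h2 := G.dense
  have h3 : (⨆ q, G.fib q) = ⊥ := by
    rw [iSup_eq_bot]
    exact h1
  rw [h3] at h2
  have h4 : (⊥ : Submodule ℂ B).topologicalClosure = ⊥ := by
    apply IsClosed.submodule_topologicalClosure_eq
    simp
  rw [h4] at h2
  obtain ⟨x, hx⟩ := exists_ne (0 : B)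
  apply hx
  have : x ∈ (⊤ : Submodule ℂ B) := Submodule.mem_top
  rw [← h2] at this
  exact (Submodule.mem_bot ℂ).1 this

/-- `d₁` is supported where `d` is. -/
def Sb (G : Fib Q B) (d₁ d : B) : Prop :=
  (∀ φ : G.Pt, φ d₁ ≠ 0 → φ d ≠ 0) ∧ G.M0 d₁ ⊆ G.M0 d

theorem Sb.refl (d : B) : Sb G d d := ⟨fun _ h => h, le_rfl⟩

theorem Sb.trans {a b c : B} (h1 : Sb G a b) (h2 : Sb G b c) : Sb G a c :=
  ⟨fun φ h => h2.1 φ (h1.1 φ h), h1.2.trans h2.2⟩

theorem Sb.mul (hC : G.Comm) {d d' : B} (hd : d ∈ G.fib 1) (hd' : d' ∈ G.fib 1) :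
    Sb G (d * d') d := by
  refine ⟨fun φ h => (phi_left hd hd' h).1, ?_⟩
  rintro q ⟨b, hb, h⟩
  refine ⟨b, hb, fun h0 => h ?_⟩
  calc d * d' * b * (d * d') = d' * d * b * (d * d') := by rw [hC d hd d' hd']
    _ = d' * (d * b * d) * d' := by simp only [mul_assoc]
    _ = 0 := by rw [h0, mul_zero, zero_mul]

theorem Fix.sb {d d₁ : B} {L : Subgroup Q} (h : Fix G d L) (hs : Sb G d₁ d) : Fix G d₁ L :=
  ⟨fun l hl φ hφ => h.1 l hl φ (hs.1 φ hφ), fun q hq l hl => h.2 q (hs.2 hq) l hl⟩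

/-! ### `DD φ L` is a subgroup -/

theorem dd_one (hPF : PF G) {φ : G.Pt} {L : Subgroup Q} (hL : ∀ l ∈ L, l ∈ G.St φ) :
    (1 : Q) ∈ G.DD φ L :=
  ⟨hPF.st_one φ, fun l hl => hPF.cm_one φ l (hL l hl)⟩

theorem dd_mul (hPF : PF G) {φ : G.Pt} {L : Subgroup Q} (hL : ∀ l ∈ L, l ∈ G.St φ) {x y : Q}
    (hx : x ∈ G.DD φ L) (hy : y ∈ G.DD φ L) : x * y ∈ G.DD φ L :=
  ⟨hPF.st_mul φ x y hx.1 hy.1, fun l hl =>
    hPF.cm_mul φ x y l hx.1 hy.1 (hL l hl) (hx.2 l hl) (hy.2 l hl)⟩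

theorem dd_inv (hPF : PF G) {φ : G.Pt} {L : Subgroup Q} (hL : ∀ l ∈ L, l ∈ G.St φ) {x : Q}
    (hx : x ∈ G.DD φ L) : x⁻¹ ∈ G.DD φ L :=
  ⟨hPF.st_inv φ x hx.1, fun l hl => hPF.cm_inv φ x l hx.1 (hL l hl) (hx.2 l hl)⟩

theorem dd_anti {φ : G.Pt} {L L' : Subgroup Q} (h : L ≤ L') {x : Q} (hx : x ∈ G.DD φ L') :
    x ∈ G.DD φ L :=
  ⟨hx.1, fun l hl => hx.2 l (h hl)⟩

/-- the elements that are in `DD φ L` for all `φ` where `d` does not vanish -/
def EE (hPF : PF G) (d : B) (L : Subgroup Q)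
    (hL : ∀ l ∈ L, ∀ φ : G.Pt, φ d ≠ 0 → l ∈ G.St φ) : Subgroup Q where
  carrier := {q | ∀ φ : G.Pt, φ d ≠ 0 → q ∈ G.DD φ L}
  one_mem' := fun φ hφ => dd_one hPF fun l hl => hL l hl φ hφ
  mul_mem' := fun hx hy φ hφ => dd_mul hPF (fun l hl => hL l hl φ hφ) (hx φ hφ) (hy φ hφ)
  inv_mem' := fun hx φ hφ => dd_inv hPF (fun l hl => hL l hl φ hφ) (hx φ hφ)

theorem exists_stable (hPF : PF G) (hPE : S_PE) (hC : G.Comm) (wf : WellFoundedGT (Subgroup Q))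
    {d : B} (hd : d ∈ G.fib 1) (hsa : IsSelfAdjoint d) (hd0 : d ≠ 0) (L : Subgroup Q)
    (hL : ∀ l ∈ L, ∀ φ : G.Pt, φ d ≠ 0 → l ∈ G.St φ) :
    ∃ d₁ ∈ G.fib 1, IsSelfAdjoint d₁ ∧ d₁ ≠ 0 ∧ Sb G d₁ d ∧ ∃ D : Subgroup Q,
      (∀ q ∈ D, ∀ φ : G.Pt, φ d₁ ≠ 0 → q ∈ G.DD φ L) ∧
      ∀ d' ∈ G.fib 1, d₁ * d' ≠ 0 → ∀ q, (∀ φ : G.Pt, φ (d₁ * d') ≠ 0 → q ∈ G.DD φ L) →
        q ∈ D := by
  let S : Set (Subgroup Q) := {D | ∃ d₁ ∈ G.fib 1, IsSelfAdjoint d₁ ∧ d₁ ≠ 0 ∧ Sb G d₁ d ∧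
    ∀ q, q ∈ D ↔ ∀ φ : G.Pt, φ d₁ ≠ 0 → q ∈ G.DD φ L}
  have hS : S.Nonempty := ⟨EE hPF d L hL, d, hd, hsa, hd0, Sb.refl d, fun q => Iff.rfl⟩
  obtain ⟨D, hD, hmax⟩ := wf.wf.has_min S hS
  obtain ⟨d₁, h1, h2, h3, h4, h5⟩ := hD
  refine ⟨d₁, h1, h2, h3, h4, D, fun q hq => (h5 q).1 hq, ?_⟩
  intro d' hd' hne q hq
  -- replace `d'` by `star d' * d'`
  have k1 : star d' * d' ∈ G.fib 1 := one_mul_mem (one_star_mem hd') hd'
  have k2 : IsSelfAdjoint (star d' * d') := IsSelfAdjoint.star_mul_self d'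
  have k3 : ∀ φ : G.Pt, φ (d₁ * d') ≠ 0 → φ (d₁ * (star d' * d')) ≠ 0 := by
    intro φ hφ
    obtain ⟨a1, a2⟩ := phi_left h1 hd' hφ
    refine phi_mul h1 k1 a1 (phi_mul (one_star_mem hd') hd' ?_ a2)
    rw [hPF.herm]
    exact star_ne_zero.2 a2
  have k4 : ∀ φ : G.Pt, φ (d₁ * (star d' * d')) ≠ 0 → φ (d₁ * d') ≠ 0 := by
    intro φ hφ
    obtain ⟨a1, a2⟩ := phi_left h1 k1 hφ
    exact phi_mul h1 hd' a1 (phi_left (one_star_mem hd') hd' a2).2
  obtain ⟨φ₀, hφ₀⟩ := exists_phi hPE hC (one_mul_mem h1 hd') hne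
  have k5 : d₁ * (star d' * d') ∈ G.fib 1 := one_mul_mem h1 k1
  have k6 := Sb.mul hC h1 k1
  have hL2 : ∀ l ∈ L, ∀ φ : G.Pt, φ (d₁ * (star d' * d')) ≠ 0 → l ∈ G.St φ :=
    fun l hl φ hφ => hL l hl φ ((k6.trans h4).1 φ hφ)
  have hmem : EE hPF (d₁ * (star d' * d')) L hL2 ∈ S :=
    ⟨_, k5, sa_mul hC h1 k1 h2 k2, ne_of_phi (k3 φ₀ hφ₀), k6.trans h4, fun q => Iff.rfl⟩
  have hle : D ≤ EE hPF (d₁ * (star d' * d')) L hL2 := by
    intro x hx φ hφ
    exact (h5 x).1 hx φ (k6.1 φ hφ)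
  have hnlt := hmax _ hmem
  have heq : D = EE hPF (d₁ * (star d' * d')) L hL2 := by
    by_contra hne
    exact hnlt (lt_of_le_of_ne hle hne)
  rw [heq]
  intro φ hφ
  exact hq φ (k4 φ hφ)

/-- systems -/
structure Sys (G : Fib Q B) (d : B) (L : Subgroup Q) : Prop where
  mem : d ∈ G.fib 1
  sa : IsSelfAdjoint d
  ne : d ≠ 0
  tf : TfAb L
  fix : Fix G d L
  sep : ∀ d' ∈ G.fib 1, d * d' ≠ 0 → ∀ l ∈ L, l ≠ 1 → ∃ φ : G.Pt, φ (d * d') ≠ 0 ∧
    l ∉ G.DD φ L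

theorem Sys.restrict (hPE : S_PE) (hC : G.Comm) {d d₁ : B} {L : Subgroup Q} (h : Sys G d L)
    (h1 : d₁ ∈ G.fib 1) (h2 : IsSelfAdjoint d₁) (h3 : d₁ ≠ 0) (h4 : Sb G d₁ d) :
    Sys G d₁ L := by
  refine ⟨h1, h2, h3, h.tf, Fix.sb h.fix h4, ?_⟩
  intro d' hd' hne l hl hl1
  obtain ⟨φ₀, hφ₀⟩ := exists_phi hPE hC (one_mul_mem h1 hd') hne
  have k1 := phi_mul h.mem (one_mul_mem h1 hd') (h4.1 φ₀ (phi_left h1 hd' hφ₀).1) hφ₀
  obtain ⟨φ, hφ, hφ2⟩ := h.sep (d₁ * d') (one_mul_mem h1 hd') (ne_of_phi k1) l hl hl1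
  exact ⟨φ, (phi_left h.mem (one_mul_mem h1 hd') hφ).2, hφ2⟩

theorem sys_bot (hPF : PF G) {d : B} (h1 : d ∈ G.fib 1) (h2 : IsSelfAdjoint d) (h3 : d ≠ 0) :
    Sys G d ⊥ := by
  refine ⟨h1, h2, h3, ⟨?_, ?_⟩, ⟨?_, ?_⟩, ?_⟩
  · intro x hx y hy
    rw [Subgroup.mem_bot] at hx hy
    rw [hx, hy]
  · intro x hx n _ _
    exact Subgroup.mem_bot.1 hx
  · intro l hl φ _
    rw [Subgroup.mem_bot.1 hl]
    exact hPF.st_one φ
  · intro q _ l hl
    rw [Subgroup.mem_bot.1 hl, mul_one, mul_inv_cancel]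
    exact Subgroup.one_mem _
  · intro d' _ _ l hl hl1
    exact absurd (Subgroup.mem_bot.1 hl) hl1

theorem m0_inv {d : B} (hsa : IsSelfAdjoint d) {q : Q} (hq : q ∈ G.M0 d) : q⁻¹ ∈ G.M0 d := by
  obtain ⟨b, hb, h⟩ := hq
  refine ⟨star b, G.star_mem q b hb, fun h0 => h ?_⟩
  have h1 : star (d * star b * d) = d * b * d := by
    rw [star_mul, star_mul, star_star, hsa.star_eq, mul_assoc]
  rw [← h1, h0, star_zero]

/-- stable subgroups are normalised -/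
theorem stable_norm (hNRM : S_NRM) (hC : G.Comm) {d : B} (h1 : d ∈ G.fib 1)
    (h2 : IsSelfAdjoint d) {A D : Subgroup Q} (hfix : Fix G d A)
    (hD1 : ∀ q ∈ D, ∀ φ : G.Pt, φ d ≠ 0 → q ∈ G.DD φ A)
    (hD2 : ∀ d' ∈ G.fib 1, d * d' ≠ 0 → ∀ q, (∀ φ : G.Pt, φ (d * d') ≠ 0 → q ∈ G.DD φ A) →
        q ∈ D) {q : Q} (hq : q ∈ G.M0 d) {x : Q} (hx : x ∈ D) : q * x * q⁻¹ ∈ D := by
  obtain ⟨d', k1, k2, k3, k4⟩ := hNRM Q B G hC d A h1 h2 hfix q hq
  apply hD2 d' k1 k3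
  intro ψ hψ
  obtain ⟨φ, hφ, h⟩ := k4 ψ hψ
  exact h x (hD1 x hx φ hφ)

end

theorem sel (hPF : S_PF) (hPE : S_PE) (hACC : S_ACC) (hGL : S_GL) (hNRM : S_NRM)
    (hL2 : S_L2) : S_SEL := by
  intro Q _ B _ G hQ hC hB
  have pf := hPF Q B G hC
  have wf := hACC Q hQ
  -- a maximal system
  let S : Set (Subgroup Q) := {L | ∃ d, Sys G d L}
  have hS : S.Nonempty := by
    obtain ⟨d, h1, h2, h3⟩ := exists_sa G
    exact ⟨⊥, d, sys_bot pf h1 h2 h3⟩
  obtain ⟨L, ⟨d₀, hsys₀⟩, hmaxL⟩ := wf.wf.has_min S hS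
  obtain ⟨d, hd, hsa, hd0, hsb, D, hD1, hD2⟩ := exists_stable pf hPE hC wf hsys₀.mem hsys₀.sa
    hsys₀.ne L hsys₀.fix.1
  have hsys := hsys₀.restrict hPE hC hd hsa hd0 hsb
  clear hsys₀ hsb
  have hnorm : ∀ q ∈ G.M0 d, ∀ x ∈ D, q * x * q⁻¹ ∈ D := fun q hq x hx =>
    stable_norm hNRM hC hd hsa hsys.fix hD1 hD2 hq hx
  by_cases hDb : D = ⊥
  · left
    refine ⟨d, hd, hsa, hd0, hL2 Q B G hC d L hd hsa (hQ.1 L) hsys.tf hsys.fix ?_⟩
    intro q hq d' hd' hne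
    by_contra hcon
    push Not at hcon
    have h1 := hD2 d' hd' hne q hcon
    rw [hDb, Subgroup.mem_bot] at h1
    exact hq h1
  · obtain ⟨K, hKD, hKb, hKn, hK⟩ := hGL Q hQ D hDb
    have hfixK : Fix G d K := by
      refine ⟨fun k hk φ hφ => (hD1 k (hKD hk) φ hφ).1, ?_⟩
      intro q hq k hk
      refine (hKn q ?_ k).1 hk
      intro x
      constructor
      · exact hnorm q hq x
      · intro hx
        have h1 := hnorm q⁻¹ (m0_inv hsa hq) _ hx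
        have h2 : q⁻¹ * (q * x * q⁻¹) * q⁻¹⁻¹ = x := by group
        rwa [h2] at h1
    rcases hK with hfin | ⟨hab, htf⟩
    · right; left
      exact ⟨d, hd, hsa, hd0, K, hKb, hfin, hfixK⟩
    · right; right
      obtain ⟨d₁, hd₁, hsa₁, hd₁0, hsb₁, D', hD1', hD2'⟩ := exists_stable pf hPE hC wf hd hsa
        hd0 K hfixK.1
      have hfixK₁ : Fix G d₁ K := Fix.sb hfixK hsb₁
      by_cases hR : D' ⊓ K = ⊥
      · exfalso
        have hsys₁ := hsys.restrict hPE hC hd₁ hsa₁ hd₁0 hsb₁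
        -- `K` and `L` are independent and commute
        have hKL : ∀ x ∈ K, x ∈ L → x = 1 := by
          intro x hxK hxL
          by_contra hx1
          have h1 : d * d ≠ 0 := by
            intro h0
            apply hd0
            rw [← CStarRing.star_mul_self_eq_zero_iff, hsa.star_eq]
            exact h0
          obtain ⟨φ, hφ, hφ2⟩ := hsys.sep d hd h1 x hxL hx1
          exact hφ2 (hD1 x (hKD hxK) φ (phi_left hd hd hφ).1)
        have hcomm : ∀ k ∈ K, ∀ l ∈ L, k * l = l * k := by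
          intro k hk l hl
          obtain ⟨φ, hφ⟩ := exists_phi hPE hC hd hd0
          exact ((hD1 k (hKD hk) φ hφ).2 l hl).1
        let N : Subgroup Q :=
          { carrier := {x | ∃ l ∈ L, ∃ k ∈ K, x = l * k}
            one_mem' := ⟨1, L.one_mem, 1, K.one_mem, (mul_one 1).symm⟩
            mul_mem' := by
              rintro _ _ ⟨l, hl, k, hk, rfl⟩ ⟨l', hl', k', hk', rfl⟩
              refine ⟨l * l', L.mul_mem hl hl', k * k', K.mul_mem hk hk', ?_⟩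
              calc l * k * (l' * k') = l * (k * l') * k' := by group
                _ = l * (l' * k) * k' := by rw [hcomm k hk l' hl']
                _ = l * l' * (k * k') := by group
            inv_mem' := by
              rintro _ ⟨l, hl, k, hk, rfl⟩
              refine ⟨l⁻¹, L.inv_mem hl, k⁻¹, K.inv_mem hk, ?_⟩
              rw [mul_inv_rev]
              exact hcomm k⁻¹ (K.inv_mem hk) l⁻¹ (L.inv_mem hl) }
        have hLN : L ≤ N := fun l hl => ⟨l, hl, 1, K.one_mem, (mul_one l).symm⟩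
        have hKN : K ≤ N := fun k hk => ⟨1, L.one_mem, k, hk, (one_mul k).symm⟩
        have hsysN : Sys G d₁ N := by
          refine ⟨hd₁, hsa₁, hd₁0, ⟨?_, ?_⟩, ⟨?_, ?_⟩, ?_⟩
          · rintro _ ⟨l, hl, k, hk, rfl⟩ _ ⟨l', hl', k', hk', rfl⟩
            calc l * k * (l' * k') = l * (k * l') * k' := by group
              _ = l * (l' * k) * k' := by rw [hcomm k hk l' hl']
              _ = (l * l') * (k * k') := by group
              _ = (l' * l) * (k' * k) := by rw [hsys.tf.1 l hl l' hl', hab k hk k' hk']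
              _ = l' * (l * k') * k := by group
              _ = l' * (k' * l) * k := by rw [hcomm k' hk' l hl]
              _ = l' * k' * (l * k) := by group
          · rintro _ ⟨l, hl, k, hk, rfl⟩ n hn h1
            have hc : Commute l k := (hcomm k hk l hl).symm
            rw [hc.mul_pow] at h1
            have h2 : k ^ n = (l ^ n)⁻¹ := (eq_inv_of_mul_eq_one_right h1)
            have h3 : k ^ n = 1 := hKL _ (K.pow_mem hk n) (by
              rw [h2]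
              exact L.inv_mem (L.pow_mem hl n))
            have h4 : l ^ n = 1 := by
              rw [h3, mul_one] at h1
              exact h1
            rw [hsys.tf.2 l hl n hn h4, htf k hk n hn h3, mul_one]
          · rintro _ ⟨l, hl, k, hk, rfl⟩ φ hφ
            exact pf.st_mul φ l k (hsys₁.fix.1 l hl φ hφ) (hfixK₁.1 k hk φ hφ)
          · rintro q hq _ ⟨l, hl, k, hk, rfl⟩
            refine ⟨q * l * q⁻¹, hsys₁.fix.2 q hq l hl, q * k * q⁻¹, hfixK₁.2 q hq k hk, ?_⟩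
            group
          · rintro d' hd' hne _ ⟨l, hl, k, hk, rfl⟩ hx1
            by_contra hcon
            push Not at hcon
            -- `hcon : ∀ φ, φ (d₁ * d') ≠ 0 → l * k ∈ DD φ N`
            have h1 : ∀ φ : G.Pt, φ (d₁ * d') ≠ 0 → l ∈ G.DD φ L := by
              intro φ hφ
              have hφ1 := (phi_left hd₁ hd' hφ).1
              have hφd := hsb₁.1 φ hφ1
              have hLφ : ∀ l ∈ L, l ∈ G.St φ := fun l hl => hsys₁.fix.1 l hl φ hφ1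
              have h2 := dd_anti hLN (hcon φ hφ)
              have h3 := dd_inv pf hLφ (hD1 k (hKD hk) φ hφd)
              have h4 := dd_mul pf hLφ h2 h3
              rwa [mul_inv_cancel_right] at h4
            have h2 : l = 1 := by
              by_contra hl1
              obtain ⟨φ, hφ, hφ2⟩ := hsys₁.sep d' hd' hne l hl hl1
              exact hφ2 (h1 φ hφ)
            subst h2
            rw [one_mul] at hcon hx1
            have h3 : k ∈ D' := hD2' d' hd' hne k fun φ hφ => dd_anti hKN (hcon φ hφ)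
            have h4 : k ∈ D' ⊓ K := ⟨h3, hk⟩
            rw [hR, Subgroup.mem_bot] at h4
            exact hx1 h4
        have hlt : L < N := by
          refine lt_of_le_of_ne hLN ?_
          intro heq
          apply hKb
          rw [eq_bot_iff]
          intro k hk
          rw [Subgroup.mem_bot]
          apply hKL k hk
          rw [heq]
          exact hKN hk
        exact hmaxL N ⟨d₁, hsysN⟩ hlt
      · refine ⟨d₁, hd₁, hsa₁, hd₁0, D' ⊓ K, hR, ⟨?_, ?_⟩, ?_⟩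
        · intro l hl φ hφ
          exact (hD1' l hl.1 φ hφ).1
        · intro q hq l hl
          exact ⟨stable_norm hNRM hC hd₁ hsa₁ hfixK₁ hD1' hD2' hq hl.1, hfixK₁.2 q hq l hl.2⟩
        · intro k hk k' hk' φ hφ
          exact (hD1' k hk.1 φ hφ).2 k' hk'.2

end Pool.Agent.Helper17.Uct
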